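import Pool.Agent.H84.SS.Targets

/-!
# Return times, row M_CSR: the Cauchy-Schwarz bound at random times
-/

set_option autoImplicit false

open MeasureTheory Filter Topology Set ProbabilityTheory
open scoped ENNReal ComplexConjugate
open Pool.Agent.H84.SS
open Pool.Agent.H85.RT (avg GoodWeight Good)
open Pool.Agent.H94.RTB (LGood PD)

universe u v

namespace Pool.Agent.H81.SS.CSR

theorem meas_random {X : Type u} [MeasurableSpace X] {γ : Type*} [MeasurableSpace γ]
    (A : ℕ → X → γ) (hA : ∀ n, Measurable (A n)) (N : X → ℕ) (hN : Measurable N) :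
    Measurable fun x => A (N x) x := by
  have h : Measurable fun p : X × ℕ => A p.2 p.1 := measurable_from_prod_countable_left hA
  exact h.comp (measurable_id.prodMk hN)

/-- the finite Cauchy-Schwarz inequality -/
theorem cs (y z : ℕ → ℂ) (K : ℝ) (hK : 0 ≤ K) (hz : ∀ n, ‖z n‖ ≤ K) (θ : ℂ) (hθ : ‖θ‖ ≤ 1)
    (N : ℕ) (hN : 0 < N) :
    ‖θ * ((∑ n ∈ Finset.Icc 1 N, y n * z n) / (N : ℂ))‖ ≤
      K * √((∑ n ∈ Finset.Icc 1 N, ‖y n‖ ^ 2) / N) := by
  have hN0 : (0 : ℝ) < N := by exact_mod_cast hN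
  have h1 : ‖∑ n ∈ Finset.Icc 1 N, y n * z n‖ ≤ ∑ n ∈ Finset.Icc 1 N, ‖y n‖ * ‖z n‖ :=
    (norm_sum_le _ _).trans (le_of_eq (Finset.sum_congr rfl fun n _ => norm_mul _ _))
  have h2 : (∑ n ∈ Finset.Icc 1 N, ‖y n‖ * ‖z n‖) ^ 2 ≤
      (∑ n ∈ Finset.Icc 1 N, ‖y n‖ ^ 2) * ∑ n ∈ Finset.Icc 1 N, ‖z n‖ ^ 2 :=
    Finset.sum_mul_sq_le_sq_mul_sq _ _ _
  have h3 : ∑ n ∈ Finset.Icc 1 N, ‖z n‖ ^ 2 ≤ N * K ^ 2 := by
    refine (Finset.sum_le_card_nsmul _ _ (K ^ 2) fun n _ => ?_).trans (le_of_eq ?_)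
    · exact pow_le_pow_left₀ (norm_nonneg _) (hz n) 2
    · simp
  have h4 : ‖θ * ((∑ n ∈ Finset.Icc 1 N, y n * z n) / (N : ℂ))‖ ≤
      (∑ n ∈ Finset.Icc 1 N, ‖y n‖ * ‖z n‖) / N := by
    rw [norm_mul, norm_div, Complex.norm_natCast]
    refine (mul_le_of_le_one_left (by positivity) hθ).trans ?_
    exact div_le_div_of_nonneg_right h1 hN0.le
  refine h4.trans ?_
  have h5 : ((∑ n ∈ Finset.Icc 1 N, ‖y n‖ * ‖z n‖) / N) ^ 2 ≤
      K ^ 2 * ((∑ n ∈ Finset.Icc 1 N, ‖y n‖ ^ 2) / N) := by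
    rw [div_pow, div_le_iff₀ (by positivity)]
    refine (h2.trans (mul_le_mul_of_nonneg_left h3 (by positivity))).trans (le_of_eq ?_)
    field_simp
  rw [← Real.sqrt_sq hK, ← Real.sqrt_mul (sq_nonneg K)]
  exact Real.le_sqrt_of_sq_le h5

theorem pf_CSR : M_CSR.{u} := by
  intro X _ μ _ y z Y K N θ Q hy hz hY hK hN hQ hlim ℓ Λ hℓ hΛ
  obtain ⟨x0⟩ : Nonempty X := μ.nonempty_of_neZero
  have hK0 : 0 ≤ K := (norm_nonneg _).trans (hK 0 x0)
  have hY0 : 0 ≤ Y := (norm_nonneg _).trans (hY 0 x0)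
  obtain ⟨A, hA⟩ : ∃ A : ℕ → X → ℝ, ∀ M x, A M x = (∑ n ∈ Finset.Icc 1 M, ‖y n x‖ ^ 2) / M :=
    ⟨_, fun _ _ => rfl⟩
  have hAm : ∀ M, Measurable (A M) := by
    intro M
    have : A M = fun x => (∑ n ∈ Finset.Icc 1 M, ‖y n x‖ ^ 2) / (M : ℝ) := funext (hA M)
    rw [this]
    exact (Finset.measurable_sum _ fun n _ => ((hy n).norm.pow_const 2)).div_const _
  have hA0 : ∀ M x, 0 ≤ A M x := by
    intro M x
    rw [hA]
    positivity
  have hA1 : ∀ M x, A M x ≤ Y ^ 2 := by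
    intro M x
    rw [hA]
    rcases Nat.eq_zero_or_pos M with rfl | hM
    · simpa using sq_nonneg Y
    · rw [div_le_iff₀ (by exact_mod_cast hM)]
      refine (Finset.sum_le_card_nsmul _ _ (Y ^ 2) fun n _ => ?_).trans (le_of_eq ?_)
      · exact pow_le_pow_left₀ (norm_nonneg _) (hY n x) 2
      · simp [mul_comm]
  have hlim' : ∀ᵐ x ∂μ, ∃ l : ℝ, Tendsto (fun M => A M x) atTop (𝓝 l) := by
    filter_upwards [hlim] with x hx
    obtain ⟨l, hl⟩ := hx
    exact ⟨l, by simpa only [hA] using hl⟩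
  obtain ⟨L, hLm, hL⟩ := measurable_limit_of_tendsto_metrizable_ae (L := atTop)
    (fun M => (hAm M).aemeasurable) hlim'
  have hL0 : ∀ᵐ x ∂μ, 0 ≤ L x := by
    filter_upwards [hL] with x hx
    exact ge_of_tendsto' hx fun M => hA0 M x
  have hL1 : ∀ᵐ x ∂μ, L x ≤ Y ^ 2 := by
    filter_upwards [hL] with x hx
    exact le_of_tendsto' hx fun M => hA1 M x
  -- integral of `L`
  have hLint : ∫ x in Q, L x ∂μ = Λ := by
    have h1 : Tendsto (fun M => ∫ x in Q, A M x ∂μ) atTop (𝓝 (∫ x in Q, L x ∂μ)) := by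
      refine tendsto_integral_of_dominated_convergence (fun _ => Y ^ 2)
        (fun M => (hAm M).aestronglyMeasurable) (integrable_const _) (fun M => ae_of_all _ fun x => ?_)
        (ae_restrict_of_ae hL)
      rw [Real.norm_of_nonneg (hA0 M x)]
      exact hA1 M x
    have h2 : Tendsto (fun M => ∫ x in Q, A M x ∂μ) atTop (𝓝 Λ) := by
      simpa only [hA] using hΛ
    exact tendsto_nhds_unique h1 h2
  -- random times
  have hg : Tendsto (fun i => ∫ x in Q, √(A (N i x) x) ∂μ) atTop (𝓝 (∫ x in Q, √(L x) ∂μ)) := by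
    refine tendsto_integral_of_dominated_convergence (fun _ => Y)
      (fun i => (meas_random (fun M x => √(A M x)) (fun M => (hAm M).sqrt) (N i)
        (hN.measN i)).aestronglyMeasurable) (integrable_const _)
      (fun i => ae_of_all _ fun x => ?_) ?_
    · rw [Real.norm_of_nonneg (Real.sqrt_nonneg _), Real.sqrt_le_left hY0]
      exact hA1 _ x
    · refine ae_restrict_of_ae ?_
      filter_upwards [hL] with x hx
      have h3 : Tendsto (fun i => N i x) atTop atTop :=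
        tendsto_atTop_mono (fun i => (Nat.le_succ i).trans (hN.large i x)) tendsto_id
      exact (Real.continuous_sqrt.tendsto _).comp (hx.comp h3)
  have hbd : ∀ i, ‖∫ x in Q, θ i x * ((∑ n ∈ Finset.Icc 1 (N i x),
      y n x * z n x) / (N i x : ℂ)) ∂μ‖ ≤ K * ∫ x in Q, √(A (N i x) x) ∂μ := by
    intro i
    rw [← integral_const_mul]
    refine norm_integral_le_of_norm_le ?_ (ae_of_all _ fun x => ?_)
    · refine Integrable.const_mul ?_ _
      refine Integrable.of_bound ((meas_random (fun M x => √(A M x)) (fun M => (hAm M).sqrt) (N i)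
        (hN.measN i)).aestronglyMeasurable) Y (ae_of_all _ fun x => ?_)
      rw [Real.norm_of_nonneg (Real.sqrt_nonneg _), Real.sqrt_le_left hY0]
      exact hA1 _ x
    · rw [hA]
      exact cs (fun n => y n x) (fun n => z n x) K hK0 (fun n => hK n x) _ (hN.bddθ i x) _
        ((Nat.succ_pos i).trans_le (hN.large i x))
  have hle : ‖ℓ‖ ≤ K * ∫ x in Q, √(L x) ∂μ := by
    refine le_of_tendsto_of_tendsto hℓ.norm
      ((hg.mono_left Nat.hyperfilter_le_atTop).const_mul K) (Eventually.of_forall hbd)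
  -- Cauchy-Schwarz for the integrals
  obtain ⟨c, hc⟩ : ∃ c, c = ∫ x in Q, √(L x) ∂μ := ⟨_, rfl⟩
  have hc0 : 0 ≤ c := by
    rw [hc]
    exact integral_nonneg fun x => Real.sqrt_nonneg _
  have hsi : Integrable (fun x => √(L x)) (μ.restrict Q) := by
    refine Integrable.of_bound hLm.sqrt.aestronglyMeasurable Y (ae_restrict_of_ae ?_)
    filter_upwards [hL1] with x hx
    rw [Real.norm_of_nonneg (Real.sqrt_nonneg _), Real.sqrt_le_left hY0]
    exact hx
  have hLi : Integrable L (μ.restrict Q) := by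
    refine Integrable.of_bound hLm.aestronglyMeasurable (Y ^ 2) (ae_restrict_of_ae ?_)
    filter_upwards [hL1, hL0] with x hx hx0
    rw [Real.norm_of_nonneg hx0]
    exact hx
  have hcs : c ^ 2 ≤ μ.real Q * Λ := by
    rcases (measureReal_nonneg (μ := μ) (s := Q)).eq_or_lt with hm | hm
    · have h4 : μ.restrict Q = 0 := by
        rw [Measure.restrict_eq_zero]
        exact (measureReal_eq_zero_iff).1 hm.symm
      rw [hc, h4, integral_zero_measure, ← hm]
      simp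
    · have h5 : 0 ≤ ∫ x in Q, (√(L x) - c / μ.real Q) ^ 2 ∂μ :=
        integral_nonneg fun x => sq_nonneg _
      have h6 : ∫ x in Q, (√(L x) - c / μ.real Q) ^ 2 ∂μ =
          ∫ x in Q, (L x - 2 * (c / μ.real Q) * √(L x) + (c / μ.real Q) ^ 2) ∂μ := by
        refine integral_congr_ae (ae_restrict_of_ae ?_)
        filter_upwards [hL0] with x hx
        have := Real.sq_sqrt hx
        show (√(L x) - c / μ.real Q) ^ 2 =
          L x - 2 * (c / μ.real Q) * √(L x) + (c / μ.real Q) ^ 2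
        linear_combination this
      have hi1 : Integrable (fun x => L x - 2 * (c / μ.real Q) * √(L x)) (μ.restrict Q) :=
        hLi.sub (hsi.const_mul _)
      rw [h6, integral_add hi1 (integrable_const _), integral_sub hLi (hsi.const_mul _),
        integral_const_mul, ← hc, hLint, setIntegral_const, smul_eq_mul] at h5
      have h7 : Λ - 2 * (c / μ.real Q) * c + μ.real Q * (c / μ.real Q) ^ 2 =
          Λ - c ^ 2 / μ.real Q := by
        field_simp
        ring
      rw [h7] at h5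
      have h8 : c ^ 2 / μ.real Q ≤ Λ := by linarith
      rw [div_le_iff₀ hm] at h8
      linarith
  calc ‖ℓ‖ ^ 2 ≤ (K * c) ^ 2 := pow_le_pow_left₀ (norm_nonneg _) (hc ▸ hle) 2
    _ = K ^ 2 * c ^ 2 := by ring
    _ ≤ K ^ 2 * (μ.real Q * Λ) := mul_le_mul_of_nonneg_left hcs (sq_nonneg _)

end Pool.Agent.H81.SS.CSR
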