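import Pool.Agent.H84.SS.Targets

/-!
# Return times, rows A_EIG and A_LEG: multiplication of good weights by characters
-/

set_option autoImplicit false

open MeasureTheory Filter Topology Set ProbabilityTheory
open scoped ENNReal ComplexConjugate
open Pool.Agent.H84.SS
open Pool.Agent.H85.RT (avg GoodWeight Good)
open Pool.Agent.H94.RTB (LGood PD Av)

universe u v

namespace Pool.Agent.H81.SS.EIG

/-- the character of the circle -/
noncomputable def c (z : UnitAddCircle) : ℂ := fourier 1 z

instance : IsProbabilityMeasure (volume : Measure UnitAddCircle) := ⟨UnitAddCircle.measure_univ⟩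

theorem norm_c (z : UnitAddCircle) : ‖c z‖ = 1 := by
  unfold c
  rw [fourier_apply]
  exact Circle.norm_coe _

theorem c_add (a z : UnitAddCircle) : c (a + z) = c a * c z := by
  unfold c
  rw [fourier_apply, fourier_apply, fourier_apply, one_smul, one_smul, one_smul,
    AddCircle.toCircle_add, Circle.coe_mul]

theorem c_nsmul (a z : UnitAddCircle) (n : ℕ) : c (n • a + z) = c a ^ n * c z := by
  induction n with
  | zero => simp
  | succ n ih =>
    have : (n + 1) • a + z = a + (n • a + z) := by rw [succ_nsmul]; abel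
    rw [this, c_add, ih, pow_succ]
    ring

theorem meas_c : Measurable c := (fourier (T := (1 : ℝ)) 1).continuous.measurable

theorem exists_c (ζ : ℂ) (h : ‖ζ‖ = 1) : ∃ a : UnitAddCircle, c a = ζ := by
  obtain ⟨θ, hθ⟩ := (Complex.norm_eq_one_iff ζ).1 h
  refine ⟨((θ / (2 * Real.pi) : ℝ) : UnitAddCircle), ?_⟩
  unfold c
  rw [fourier_coe_apply, ← hθ]
  congr 1
  have hpi : (Real.pi : ℂ) ≠ 0 := by exact_mod_cast Real.pi_ne_zero
  push_cast
  field_simp

section

variable {X : Type u} [MeasurableSpace X]

/-- the extension of `T` by the rotation by `a` -/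
noncomputable def ext (T : X ≃ᵐ X) (a : UnitAddCircle) :
    (X × UnitAddCircle) ≃ᵐ (X × UnitAddCircle) :=
  T.prodCongr (MeasurableEquiv.addLeft a)

theorem ext_iter (T : X ≃ᵐ X) (a : UnitAddCircle) (n : ℕ) (p : X × UnitAddCircle) :
    (ext T a)^[n] p = (T^[n] p.1, n • a + p.2) := by
  induction n with
  | zero => simp
  | succ n ih =>
    rw [Function.iterate_succ_apply', ih, Function.iterate_succ_apply']
    have : (n + 1) • a + p.2 = a + (n • a + p.2) := by rw [succ_nsmul]; abel
    rw [this]
    rfl

theorem ext_symm_iter (T : X ≃ᵐ X) (a : UnitAddCircle) (n : ℕ) (p : X × UnitAddCircle) :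
    ((ext T a).symm^[n] p).1 = T.symm^[n] p.1 := by
  induction n with
  | zero => simp
  | succ n ih =>
    rw [Function.iterate_succ_apply', Function.iterate_succ_apply', ← ih]
    rfl

theorem ext_mp {μ : Measure X} [IsProbabilityMeasure μ] {T : X ≃ᵐ X}
    (hT : MeasurePreserving T μ μ) (a : UnitAddCircle) :
    MeasurePreserving (ext T a) (μ.prod volume) (μ.prod volume) :=
  hT.prod (measurePreserving_add_left (volume : Measure UnitAddCircle) a)

end

theorem pf_EIG : A_EIG.{u} := by
  intro hone ζ hζ X _ μ _ T hT f g hf hg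
  obtain ⟨a, rfl⟩ := exists_c ζ hζ
  have hF : MemLp (fun p : X × UnitAddCircle => f p.1 * c p.2) ⊤ (μ.prod volume) := by
    refine MemLp.of_le (hf.comp_fst volume) ?_ (ae_of_all _ fun p => ?_)
    · exact (hf.comp_fst volume).aestronglyMeasurable.mul
        (meas_c.comp measurable_snd).aestronglyMeasurable
    · rw [norm_mul, norm_c, mul_one]
  have hG : MemLp (fun p : X × UnitAddCircle => g p.1) ⊤ (μ.prod volume) := hg.comp_fst volume
  have h1 := hone (X × UnitAddCircle) (μ.prod volume) (ext T a) (ext_mp hT a) _ _ hF hG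
  have h2 := Measure.ae_ae_of_ae_prod h1
  filter_upwards [h2] with x hx
  obtain ⟨z, l, hl⟩ := hx.exists
  refine ⟨(c z)⁻¹ * l, ?_⟩
  have hcz : c z ≠ 0 := by
    intro h
    have := norm_c z
    rw [h, norm_zero] at this
    exact zero_ne_one this
  have h3 : ∀ N, avg T f g (fun n => c a ^ n) N x = (c z)⁻¹ *
      avg (ext T a) (fun p : X × UnitAddCircle => f p.1 * c p.2)
        (fun p : X × UnitAddCircle => g p.1) (fun _ => 1) N (x, z) := by
    intro N
    unfold avg
    rw [← mul_div_assoc, Finset.mul_sum]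
    congr 1
    refine Finset.sum_congr rfl fun n _ => ?_
    show f (T^[n] x) * g (T.symm^[n] x) * c a ^ n =
      (c z)⁻¹ * (f ((ext T a)^[n] (x, z)).1 * c ((ext T a)^[n] (x, z)).2 *
        g ((ext T a).symm^[n] (x, z)).1 * 1)
    rw [ext_iter, ext_symm_iter, c_nsmul]
    field_simp
  rw [show (fun N => avg T f g (fun n => c a ^ n) N x) = _ from funext h3]
  exact hl.const_mul _

theorem pf_LEG : A_LEG.{u} := by
  intro w hw ζ hζ X _ μ _ T hT F hF hF1
  obtain ⟨a, rfl⟩ := exists_c ζ hζ
  have h1 := hw (X × UnitAddCircle) (μ.prod volume) (ext T a) (ext_mp hT a)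
    (fun p : X × UnitAddCircle => F p.1 * c p.2)
    ((hF.comp measurable_fst).mul (meas_c.comp measurable_snd))
    (fun p => by rw [norm_mul, norm_c, mul_one]; exact hF1 _)
  have h2 := Measure.ae_ae_of_ae_prod h1
  filter_upwards [h2] with x hx
  obtain ⟨z, l, hl⟩ := hx.exists
  refine ⟨(c z)⁻¹ * l, ?_⟩
  have hcz : c z ≠ 0 := by
    intro h
    have := norm_c z
    rw [h, norm_zero] at this
    exact zero_ne_one this
  have h3 : ∀ N, Av T F (fun n => c a ^ n * w n) N x = (c z)⁻¹ *
      Av (ext T a) (fun p : X × UnitAddCircle => F p.1 * c p.2) w N (x, z) := by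
    intro N
    unfold Av
    rw [← mul_div_assoc, Finset.mul_sum]
    congr 1
    refine Finset.sum_congr rfl fun n _ => ?_
    show c a ^ n * w n * F (T^[n] x) = (c z)⁻¹ * (w n * (F ((ext T a)^[n] (x, z)).1 *
      c ((ext T a)^[n] (x, z)).2))
    rw [ext_iter, c_nsmul]
    field_simp
  rw [show (fun N => Av T F (fun n => c a ^ n * w n) N x) = _ from funext h3]
  exact hl.const_mul _

end Pool.Agent.H81.SS.EIG
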