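import Pool.Agent.H84.SS.Targets

/-!
# Return times, row A_THW: the theorem for the weights, bounded functions
-/

set_option autoImplicit false

open MeasureTheory Filter Topology Set ProbabilityTheory
open scoped ENNReal ComplexConjugate
open Pool.Agent.H84.SS
open Pool.Agent.H85.RT (avg GoodWeight Good)
open Pool.Agent.H94.RTB (LGood PD)

universe u v

namespace Pool.Agent.H81.SS.THW

section avgs

variable {X : Type u} [MeasurableSpace X]

theorem avg_meas (T : X ≃ᵐ X) {f g : X → ℂ} (hf : Measurable f) (hg : Measurable g) (w : ℕ → ℂ)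
    (N : ℕ) : Measurable (fun x => avg T f g w N x) := by
  unfold avg
  refine Measurable.div_const (Finset.measurable_sum _ fun n _ => ?_) _
  exact ((hf.comp (T.measurable.iterate n)).mul (hg.comp (T.symm.measurable.iterate n))).mul_const _

theorem avg_add (T : X ≃ᵐ X) (f g : X → ℂ) (w w1 w2 : ℕ → ℂ) (h : ∀ n, w n = w1 n + w2 n)
    (N : ℕ) (x : X) : avg T f g w N x = avg T f g w1 N x + avg T f g w2 N x := by
  unfold avg
  rw [← add_div, ← Finset.sum_add_distrib]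
  congr 1
  refine Finset.sum_congr rfl fun n _ => ?_
  rw [h n]
  ring

theorem avg_sum (T : X ≃ᵐ X) (f g : X → ℂ) {ι : Type*} (F : Finset ι) (c : ι → ℂ)
    (w : ι → ℕ → ℂ) (N : ℕ) (x : X) :
    avg T f g (fun n => ∑ t ∈ F, c t * w t n) N x = ∑ t ∈ F, c t * avg T f g (w t) N x := by
  unfold avg
  rw [Finset.sum_div, Finset.sum_congr rfl fun t _ => (mul_div_assoc (c t) _ _).symm,
    ← Finset.sum_div]
  rw [← Finset.sum_div]
  congr 1
  rw [Finset.sum_congr rfl fun t _ => Finset.mul_sum _ _ _, Finset.sum_comm]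
  refine Finset.sum_congr rfl fun n _ => ?_
  rw [Finset.mul_sum]
  refine Finset.sum_congr rfl fun t _ => ?_
  ring

theorem avg_scale (T : X ≃ᵐ X) (f g f' g' : X → ℂ) (w : ℕ → ℂ) (C C' : ℂ) (x : X)
    (hf : ∀ n : ℕ, f (T^[n] x) = C * f' (T^[n] x))
    (hg : ∀ n : ℕ, g (T.symm^[n] x) = C' * g' (T.symm^[n] x)) (N : ℕ) :
    avg T f g w N x = C * C' * avg T f' g' w N x := by
  unfold avg
  rw [← mul_div_assoc, Finset.mul_sum]
  congr 1
  refine Finset.sum_congr rfl fun n _ => ?_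
  rw [hf n, hg n]
  ring

theorem fp_meas (T : X ≃ᵐ X) {f : X → ℂ} (hf : Measurable f) (b b' : ℕ) :
    Measurable (fp T f b b') := by
  unfold fp
  exact (hf.comp (T.measurable.iterate b)).mul
    (Complex.continuous_conj.measurable.comp (hf.comp (T.measurable.iterate b')))

omit [MeasurableSpace X] in
theorem fp_bdd (T : X → X) {f : X → ℂ} (hf : ∀ x, ‖f x‖ ≤ 1) (b b' : ℕ) (x : X) :
    ‖fp T f b b' x‖ ≤ 1 := by
  unfold fp
  rw [norm_mul, RCLike.norm_conj]
  exact mul_le_one₀ (hf _) (norm_nonneg _) (hf _)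

theorem memLp_of (μ : Measure X) [IsProbabilityMeasure μ] {f : X → ℂ} (hf : Measurable f)
    (h : ∀ x, ‖f x‖ ≤ 1) : MemLp f ⊤ μ :=
  memLp_top_of_bound hf.aestronglyMeasurable 1 (ae_of_all _ h)

theorem drfg_of_dr {μ : Measure X} {T : X ≃ᵐ X} (h : DR μ T) {f g : X → ℂ} (hf : Measurable f)
    (hg : Measurable g) (hf1 : ∀ x, ‖f x‖ ≤ 1) (hg1 : ∀ x, ‖g x‖ ≤ 1) : DRfg μ T f g :=
  fun b b' c c' => h _ _ (fp_meas T hf b b') (fp_meas T.symm hg c c') (fp_bdd T hf1 b b')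
    (fp_bdd T.symm hg1 c c')

end avgs

theorem orbit {Ω : Type v} [MeasurableSpace Ω] {m : Measure Ω} {S : Ω ≃ᵐ Ω}
    (hS : MeasurePreserving S m m) {φ : Ω → ℂ} {ζ : ℂ} (h : ∀ᵐ ω ∂m, φ (S ω) = ζ * φ ω) :
    ∀ᵐ ω ∂m, ∀ n : ℕ, φ (S^[n] ω) = ζ ^ n * φ ω := by
  have h1 : ∀ᵐ ω ∂m, ∀ n : ℕ, φ (S (S^[n] ω)) = ζ * φ (S^[n] ω) :=
    ae_all_iff.2 fun n => (hS.iterate n).quasiMeasurePreserving.ae h
  filter_upwards [h1] with ω hω n
  induction n with
  | zero => simp
  | succ n ih => rw [Function.iterate_succ_apply', hω n, ih, pow_succ]; ring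

theorem norm_f1 (t : T1) : ‖(fourier 1 t : ℂ)‖ = 1 := by
  rw [fourier_apply]
  exact Circle.norm_coe _

theorem pf_THW (h1 : A_WGD.{u,v}) (h2 : A_ATM.{v}) (h3 : A_SML) (h4 : A_EIG.{u})
    (h5 : A_CAU.{u}) (h6 : A_LIX.{u}) (h7 : M_MXW.{u}) : A_THW.{u,v} := by
  intro Ω _ m _ S hS h σ hh hh1 hspec hsing
  have hfin : IsFiniteMeasure σ := hspec.1
  have hSm : MeasurePreserving S m m := hS.toMeasurePreserving
  -- the decompositions
  have hk : ∀ k : ℕ, ∃ F : Finset T1,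
      (σ.restrict (F : Set T1)ᶜ).real (atoms (σ.restrict (F : Set T1)ᶜ)) ≤ 1 / ((k : ℝ) + 1) :=
    fun k => h3 σ _ (by positivity)
  choose F hF using hk
  have hφ := fun k : ℕ => h2 Ω m S hSm h 1 σ hh hh1 hspec (F k)
  choose φ hφm hφb hφe hφs using hφ
  choose C hC using hφb
  obtain ⟨q, hq⟩ : ∃ q : ℕ → Ω → ℂ, ∀ k ω, q k ω = h ω - ∑ t ∈ F k, φ k t ω :=
    ⟨_, fun _ _ => rfl⟩
  have hqm : ∀ k, Measurable (q k) := by
    intro k
    have : q k = fun ω => h ω - ∑ t ∈ F k, φ k t ω := funext (hq k)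
    rw [this]
    exact hh.sub (Finset.measurable_sum _ fun t _ => hφm k t)
  have hqb : ∀ k ω, ‖q k ω‖ ≤ 1 + ∑ _t ∈ F k, C k := by
    intro k ω
    rw [hq]
    refine (norm_sub_le _ _).trans (add_le_add (hh1 ω) ?_)
    exact (norm_sum_le _ _).trans (Finset.sum_le_sum fun t _ => hC k t ω)
  have hqs : ∀ k, IsSpec m S (q k) (σ.restrict (F k : Set T1)ᶜ) := by
    intro k
    have : q k = fun ω => h ω - ∑ t ∈ F k, φ k t ω := funext (hq k)
    rw [this]
    exact hφs k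
  have hw0 := h1 Ω m S hS h 1 σ hh hh1 hspec
  have hwk : ∀ᵐ ω ∂m, ∀ k, WGood.{u} (1 + ∑ _t ∈ F k, C k) (fun n => q k (S^[n] ω))
      (fun j => ∫ t, fourier j t ∂(σ.restrict (F k : Set T1)ᶜ)) :=
    ae_all_iff.2 fun k => h1 Ω m S hS (q k) _ _ (hqm k) (hqb k) (hqs k)
  have horb : ∀ᵐ ω ∂m, ∀ k, ∀ t ∈ F k, ∀ n : ℕ,
      φ k t (S^[n] ω) = (fourier 1 t : ℂ) ^ n * φ k t ω := by
    rw [ae_all_iff]
    intro k
    rw [eventually_all_finset]
    intro t _
    exact orbit hSm (hφe k t)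
  filter_upwards [hw0, hwk, horb] with ω hω0 hωk hωo
  refine ⟨fun hone => ?_, fun hat => ?_⟩
  · -- the first part
    intro X _ μ _ T hT f g hf hg
    obtain ⟨Cf, f', -, hf'm, hf'1, hf'e⟩ := h6 X μ T hT f hf
    obtain ⟨Cg, g', -, hg'm, hg'1, hg'e⟩ := h6 X μ T hT g hg
    have hDR : DR μ T := fun a b ha hb ha1 hb1 =>
      hone X μ T hT a b (memLp_of μ ha ha1) (memLp_of μ hb hb1)
    have hDRfg : DRfg μ T f' g' := drfg_of_dr hDR hf'm hg'm hf'1 hg'1
    have hmain : ∀ᵐ x ∂μ, ∃ l : ℂ,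
        Tendsto (fun N => avg T f' g' (fun n => h (S^[n] ω)) N x) atTop (𝓝 l) := by
      refine h5 X μ (fun N x => avg T f' g' (fun n => h (S^[n] ω)) N x)
        (fun N => avg_meas T hf'm hg'm _ N) fun ε hε => ?_
      obtain ⟨k, hk⟩ : ∃ k : ℕ, √(1 / ((k : ℝ) + 1)) ≤ ε := by
        obtain ⟨k, hk⟩ := exists_nat_one_div_lt (sq_pos_of_pos hε)
        refine ⟨k, ?_⟩
        rw [Real.sqrt_le_left hε.le]
        exact hk.le
      refine ⟨fun N x => avg T f' g' (fun n => ∑ t ∈ F k, φ k t ω * (fourier 1 t : ℂ) ^ n) N x,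
        fun N x => avg T f' g' (fun n => q k (S^[n] ω)) N x,
        fun N => avg_meas T hf'm hg'm _ N, ?_, ?_, ?_⟩
      · refine ae_of_all _ fun x N => ?_
        refine avg_add T f' g' _ _ _ (fun n => ?_) N x
        rw [hq]
        have : ∑ t ∈ F k, φ k t (S^[n] ω) = ∑ t ∈ F k, φ k t ω * (fourier 1 t : ℂ) ^ n :=
          Finset.sum_congr rfl fun t ht => by rw [hωo k t ht n, mul_comm]
        rw [this]
        ring
      · have hz : ∀ᵐ x ∂μ, ∀ t ∈ F k, ∃ l : ℂ,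
            Tendsto (fun N => avg T f' g' (fun n => (fourier 1 t : ℂ) ^ n) N x) atTop (𝓝 l) := by
          rw [eventually_all_finset]
          intro t _
          exact h4 hone _ (norm_f1 t) X μ T hT f' g' (memLp_of μ hf'm hf'1) (memLp_of μ hg'm hg'1)
        filter_upwards [hz] with x hx
        have hx' : ∀ t : T1, ∃ l : ℂ, t ∈ F k →
            Tendsto (fun N => avg T f' g' (fun n => (fourier 1 t : ℂ) ^ n) N x) atTop (𝓝 l) := by
          intro t
          by_cases ht : t ∈ F k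
          · obtain ⟨l, hl⟩ := hx t ht
            exact ⟨l, fun _ => hl⟩
          · exact ⟨0, fun h => absurd h ht⟩
        choose l hl using hx'
        refine ⟨∑ t ∈ F k, φ k t ω * l t, ?_⟩
        have : (fun N => avg T f' g' (fun n => ∑ t ∈ F k, φ k t ω * (fourier 1 t : ℂ) ^ n) N x) =
            fun N => ∑ t ∈ F k, φ k t ω * avg T f' g' (fun n => (fourier 1 t : ℂ) ^ n) N x :=
          funext fun N => avg_sum T f' g' (F k) (fun t => φ k t ω)
            (fun t n => (fourier 1 t : ℂ) ^ n) N x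
        rw [this]
        exact tendsto_finsetSum _ fun t ht => (hl t ht).const_mul _
      · intro δ hδ
        refine (h7 X μ T f' g' _ _ _ (σ.restrict (F k : Set T1)ᶜ) hT hf'm hg'm hf'1 hg'1 (hωk k)
          hDRfg (fun n => rfl) (hsing.mono Measure.restrict_le_self le_rfl) δ hδ).trans ?_
        exact (Real.sqrt_le_sqrt (hF k)).trans hk
    filter_upwards [hmain, hf'e, hg'e] with x hx hxf hxg
    obtain ⟨l, hl⟩ := hx
    refine ⟨(Cf : ℂ) * Cg * l, ?_⟩
    have : (fun N => avg T f g (fun n => h (S^[n] ω)) N x) =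
        fun N => (Cf : ℂ) * Cg * avg T f' g' (fun n => h (S^[n] ω)) N x :=
      funext fun N => avg_scale T f g f' g' _ _ _ x (fun n => (hxf n).1) (fun n => (hxg n).2) N
    rw [this]
    exact hl.const_mul _
  · -- the second part
    intro X _ μ _ T hT hDR f g hf hg
    obtain ⟨Cf, f', -, hf'm, hf'1, hf'e⟩ := h6 X μ T hT f hf
    obtain ⟨Cg, g', -, hg'm, hg'1, hg'e⟩ := h6 X μ T hT g hg
    have hDRfg : DRfg μ T f' g' := drfg_of_dr hDR hf'm hg'm hf'1 hg'1
    have hat0 : atoms σ = ∅ := by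
      ext t
      simp [atoms, hat t]
    have hz : ∀ δ > (0 : ℝ), ∀ᵐ x ∂μ,
        ¬ ∃ᶠ M in atTop, δ < ‖avg T f' g' (fun n => h (S^[n] ω)) M x‖ := by
      intro δ hδ
      have h8 := h7 X μ T f' g' _ _ _ σ hT hf'm hg'm hf'1 hg'1 hω0
          hDRfg (fun n => rfl) hsing δ hδ
      rw [hat0, measureReal_empty, Real.sqrt_zero] at h8
      have h9 : μ.real {x | ∃ᶠ M in atTop, δ < ‖avg T f' g' (fun n => h (S^[n] ω)) M x‖} = 0 := by
        refine le_antisymm ?_ measureReal_nonneg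
        by_contra hcon
        push Not at hcon
        exact absurd h8 (not_le.2 (mul_pos hδ hcon))
      rw [ae_iff]
      have h10 := (measureReal_eq_zero_iff).1 h9
      simpa only [not_not] using h10
    have hz' : ∀ᵐ x ∂μ, ∀ j : ℕ,
        ¬ ∃ᶠ M in atTop, 1 / ((j : ℝ) + 1) < ‖avg T f' g' (fun n => h (S^[n] ω)) M x‖ :=
      ae_all_iff.2 fun j => hz _ (by positivity)
    filter_upwards [hz', hf'e, hg'e] with x hx hxf hxg
    have hlim : Tendsto (fun N => avg T f' g' (fun n => h (S^[n] ω)) N x) atTop (𝓝 0) := by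
      rw [Metric.tendsto_atTop']
      intro ε hε
      obtain ⟨j, hj⟩ := exists_nat_one_div_lt hε
      have h11 := hx j
      rw [not_frequently] at h11
      obtain ⟨N0, hN0⟩ := eventually_atTop.1 h11
      refine ⟨N0, fun n hn => ?_⟩
      rw [dist_zero_right]
      exact (not_lt.1 (hN0 n hn.le)).trans_lt hj
    have : (fun N => avg T f g (fun n => h (S^[n] ω)) N x) =
        fun N => (Cf : ℂ) * Cg * avg T f' g' (fun n => h (S^[n] ω)) N x :=
      funext fun N => avg_scale T f g f' g' _ _ _ x (fun n => (hxf n).1) (fun n => (hxg n).2) N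
    rw [this]
    have := hlim.const_mul ((Cf : ℂ) * Cg)
    rwa [mul_zero] at this

end Pool.Agent.H81.SS.THW
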